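import Pool.Agent.H29.FE.Rf

/-!
# Clause (E), module Sums: the two sums over the class sizes
-/

namespace H29FE

open Finset

theorem sum_inj_le {β : Type*} (P : Finset β) (u : β → ℕ) (f : ℕ → ℝ) (hf : ∀ j, 0 ≤ f j) (N : ℕ)
    (hu : Set.InjOn u P) (hN : ∀ x ∈ P, u x < N) : ∑ x ∈ P, f (u x) ≤ ∑ j ∈ range N, f j := by
  classical
  rw [← sum_image (f := f) hu]
  refine sum_le_sum_of_subset_of_nonneg ?_ fun j _ _ => hf j
  intro j hj
  obtain ⟨x, hx, rfl⟩ := mem_image.1 hj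
  exact mem_range.2 (hN x hx)

/-- the class sizes `(a, a, a, b, b)` -/
theorem sum1_le (n : ℕ) (hn : 0 < n) :
    ∑ x ∈ ((range (n + 1)) ×ˢ (range (n + 1))).filter (fun x : ℕ × ℕ => 3 * x.1 + 2 * x.2 = n),
      rf (1 / 2) x.1 ^ 3 * rf (1 / 2) x.2 ^ 2 ≤ 3 / n * (1 + Real.log (n + 2)) := by
  set P := ((range (n + 1)) ×ˢ (range (n + 1))).filter (fun x : ℕ × ℕ => 3 * x.1 + 2 * x.2 = n) with hP
  have hn' : (0 : ℝ) < n := by exact_mod_cast hn
  have h1 : ∀ x ∈ P, rf (1 / 2) x.1 ^ 3 * rf (1 / 2) x.2 ^ 2 ≤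
      3 / (2 * n) * (1 / ((x.1 : ℝ) + 1) + 1 / ((x.2 : ℝ) + 1)) := by
    intro x hx
    have he : 3 * x.1 + 2 * x.2 = n := (mem_filter.1 hx).2
    have he' : 3 * (x.1 : ℝ) + 2 * x.2 = n := by exact_mod_cast he
    have ha : (0 : ℝ) ≤ x.1 := Nat.cast_nonneg _
    have hb : (0 : ℝ) ≤ x.2 := Nat.cast_nonneg _
    have h2 : rf (1 / 2) x.1 ^ 3 ≤ rf (1 / 2) x.1 ^ 2 := by
      rw [pow_succ]
      exact mul_le_of_le_one_right (sq_nonneg _) (rf_le_one _)
    calc rf (1 / 2) x.1 ^ 3 * rf (1 / 2) x.2 ^ 2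
        ≤ rf (1 / 2) x.1 ^ 2 * rf (1 / 2) x.2 ^ 2 := mul_le_mul_of_nonneg_right h2 (sq_nonneg _)
      _ ≤ 1 / (2 * x.1 + 1) * (1 / (2 * x.2 + 1)) :=
          mul_le_mul (rf_sq_le _) (rf_sq_le _) (sq_nonneg _) (by positivity)
      _ = 1 / (2 * x.1 + 2 * x.2 + 2) * (1 / (2 * (x.1 : ℝ) + 1) + 1 / (2 * (x.2 : ℝ) + 1)) := by
          field_simp
          ring
      _ ≤ 3 / (2 * n) * (1 / ((x.1 : ℝ) + 1) + 1 / ((x.2 : ℝ) + 1)) := by
          refine mul_le_mul ?_ (add_le_add ?_ ?_) (by positivity) (by positivity)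
          · rw [div_le_div_iff₀ (by positivity) (by positivity)]
            linarith
          · exact one_div_le_one_div_of_le (by positivity) (by linarith)
          · exact one_div_le_one_div_of_le (by positivity) (by linarith)
  refine (sum_le_sum h1).trans ?_
  rw [← mul_sum, sum_add_distrib]
  have hlt : ∀ x ∈ P, x.1 < n + 1 ∧ x.2 < n + 1 := fun x hx => by
    have := (mem_filter.1 hx).1
    rw [mem_product, mem_range, mem_range] at this
    exact this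
  have hpos : ∀ j : ℕ, (0 : ℝ) ≤ 1 / ((j : ℝ) + 1) := fun j => by positivity
  have h3 := sum_inj_le P (fun x => x.1) (fun j => 1 / ((j : ℝ) + 1)) hpos (n + 1) (by
    intro x hx y hy hxy
    have hx' := (mem_filter.1 (mem_coe.1 hx)).2
    have hy' := (mem_filter.1 (mem_coe.1 hy)).2
    simp only at hxy
    exact Prod.ext hxy (by omega)) (fun x hx => (hlt x hx).1)
  have h4 := sum_inj_le P (fun x => x.2) (fun j => 1 / ((j : ℝ) + 1)) hpos (n + 1) (by
    intro x hx y hy hxy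
    have hx' := (mem_filter.1 (mem_coe.1 hx)).2
    have hy' := (mem_filter.1 (mem_coe.1 hy)).2
    simp only at hxy
    exact Prod.ext (by omega) hxy) (fun x hx => (hlt x hx).2)
  have h5 := harm_le (n + 1)
  push_cast at h5
  have h6 : (n : ℝ) + 1 + 1 = n + 2 := by ring
  rw [h6] at h5
  calc 3 / (2 * (n : ℝ)) * (∑ x ∈ P, 1 / ((x.1 : ℝ) + 1) + ∑ x ∈ P, 1 / ((x.2 : ℝ) + 1))
      ≤ 3 / (2 * n) * ((1 + Real.log (n + 2)) + (1 + Real.log (n + 2))) :=
        mul_le_mul_of_nonneg_left (add_le_add (h3.trans h5) (h4.trans h5)) (by positivity)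
    _ = 3 / n * (1 + Real.log (n + 2)) := by field_simp; ring

/-- the class sizes `(a, a, a, n - 3 a)`, `m ≤ a` -/
theorem sum2_le (n m : ℕ) (hn : 0 < n) :
    ∑ a ∈ (range (n + 1)).filter (fun a => m ≤ a ∧ 3 * a ≤ n),
      rf (1 / 2) a ^ 3 * rf (1 / 2) (n - 3 * a) ≤
      (10 + Real.log (n + 2)) / (Real.sqrt (2 * m + 1) * Real.sqrt n) := by
  set P := (range (n + 1)).filter (fun a => m ≤ a ∧ 3 * a ≤ n) with hP
  have hn' : (0 : ℝ) < n := by exact_mod_cast hn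
  have hsn : 0 < Real.sqrt n := Real.sqrt_pos.2 hn'
  have hm0 : (0 : ℝ) < 2 * m + 1 := by positivity
  have hsm : 0 < Real.sqrt (2 * m + 1) := Real.sqrt_pos.2 hm0
  have h1 : ∀ a ∈ P, rf (1 / 2) a ^ 3 * rf (1 / 2) (n - 3 * a) ≤
      1 / Real.sqrt (2 * m + 1) * (1 / Real.sqrt n * (1 / ((a : ℝ) + 1)) +
        3 / n * (1 / Real.sqrt (((n - 3 * a : ℕ) : ℝ) + 1))) := by
    intro a ha
    obtain ⟨hm, h3a⟩ := (mem_filter.1 ha).2
    have ha0 : (0 : ℝ) ≤ a := Nat.cast_nonneg _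
    have hma : (m : ℝ) ≤ a := by exact_mod_cast hm
    have hb0 : (0 : ℝ) ≤ ((n - 3 * a : ℕ) : ℝ) := Nat.cast_nonneg _
    have hb : ((n - 3 * a : ℕ) : ℝ) = n - 3 * a := by
      rw [Nat.cast_sub h3a]; push_cast; ring
    have h2 : rf (1 / 2) a ≤ 1 / Real.sqrt (2 * m + 1) :=
      (rf_le a).trans (one_div_le_one_div_of_le hsm (Real.sqrt_le_sqrt (by linarith)))
    have h3 : rf (1 / 2) a ^ 2 * rf (1 / 2) (n - 3 * a) ≤ 1 / Real.sqrt n * (1 / ((a : ℝ) + 1)) +
        3 / n * (1 / Real.sqrt (((n - 3 * a : ℕ) : ℝ) + 1)) := by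
      have h4 : 0 ≤ 1 / Real.sqrt n * (1 / ((a : ℝ) + 1)) := by positivity
      have h5 : 0 ≤ 3 / (n : ℝ) * (1 / Real.sqrt (((n - 3 * a : ℕ) : ℝ) + 1)) := by positivity
      rcases le_or_gt (6 * (a : ℝ)) n with h6 | h6
      · refine le_trans ?_ (le_add_of_nonneg_right h5)
        rw [mul_comm]
        refine mul_le_mul ((rf_le _).trans (one_div_le_one_div_of_le hsn
          (Real.sqrt_le_sqrt (by rw [hb]; linarith)))) ((rf_sq_le _).trans
          (one_div_le_one_div_of_le (by positivity) (by linarith))) (sq_nonneg _) (by positivity)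
      · refine le_trans ?_ (le_add_of_nonneg_left h4)
        refine mul_le_mul ((rf_sq_le _).trans ?_) ((rf_le _).trans (one_div_le_one_div_of_le
          (Real.sqrt_pos.2 (by positivity)) (Real.sqrt_le_sqrt (by linarith)))) (rf_pos _).le
          (by positivity)
        rw [div_le_div_iff₀ (by positivity) hn']
        linarith
    calc rf (1 / 2) a ^ 3 * rf (1 / 2) (n - 3 * a)
        = rf (1 / 2) a * (rf (1 / 2) a ^ 2 * rf (1 / 2) (n - 3 * a)) := by ring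
      _ ≤ _ := mul_le_mul h2 h3 (mul_nonneg (sq_nonneg _) (rf_pos _).le) (by positivity)
  refine (sum_le_sum h1).trans ?_
  rw [← mul_sum, sum_add_distrib, ← mul_sum, ← mul_sum]
  have h3 := sum_inj_le P (fun x => x) (fun j => 1 / ((j : ℝ) + 1)) (fun j => by positivity) (n + 1)
    (fun x _ y _ h => h) (fun x hx => mem_range.1 (mem_filter.1 hx).1)
  have h4 := sum_inj_le P (fun x => n - 3 * x) (fun j => 1 / Real.sqrt ((j : ℝ) + 1))
    (fun j => by positivity) (n + 1) (by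
    intro x hx y hy hxy
    have hx' := (mem_filter.1 (mem_coe.1 hx)).2
    have hy' := (mem_filter.1 (mem_coe.1 hy)).2
    simp only at hxy
    omega) (fun x hx => by omega)
  have h5 := harm_le (n + 1)
  push_cast at h5
  have h6 : (n : ℝ) + 1 + 1 = n + 2 := by ring
  rw [h6] at h5
  have h7 := sqrt_sum_le (n + 1)
  push_cast at h7
  have h8 : Real.sqrt ((n : ℝ) + 1) ≤ 3 / 2 * Real.sqrt n := by
    rw [show (3 / 2 : ℝ) = Real.sqrt ((3 / 2) ^ 2) from (Real.sqrt_sq (by norm_num)).symm,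
      ← Real.sqrt_mul (by norm_num)]
    refine Real.sqrt_le_sqrt ?_
    have : (1 : ℝ) ≤ n := by exact_mod_cast hn
    linarith
  have h9 : 3 / (n : ℝ) * (∑ x ∈ P, 1 / Real.sqrt (((n - 3 * x : ℕ) : ℝ) + 1)) ≤ 9 * (1 / Real.sqrt n) := by
    have h10 : ∑ x ∈ P, 1 / Real.sqrt (((n - 3 * x : ℕ) : ℝ) + 1) ≤ 3 * Real.sqrt n :=
      (h4.trans h7).trans (by linarith)
    calc 3 / (n : ℝ) * (∑ x ∈ P, 1 / Real.sqrt (((n - 3 * x : ℕ) : ℝ) + 1)) ≤
        3 / n * (3 * Real.sqrt n) := mul_le_mul_of_nonneg_left h10 (by positivity)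
      _ = 9 * (1 / Real.sqrt n) := by
          rw [div_mul_eq_mul_div, mul_one_div, div_eq_div_iff hn'.ne' hsn.ne']
          have := Real.mul_self_sqrt hn'.le
          linear_combination 9 * this
  calc 1 / Real.sqrt (2 * m + 1) * (1 / Real.sqrt n * ∑ x ∈ P, 1 / ((x : ℝ) + 1) +
        3 / n * ∑ x ∈ P, 1 / Real.sqrt (((n - 3 * x : ℕ) : ℝ) + 1))
      ≤ 1 / Real.sqrt (2 * m + 1) * (1 / Real.sqrt n * (1 + Real.log (n + 2)) + 9 * (1 / Real.sqrt n)) :=
        mul_le_mul_of_nonneg_left (add_le_add (mul_le_mul_of_nonneg_left (h3.trans h5)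
          (by positivity)) h9) (by positivity)
    _ = (10 + Real.log (n + 2)) / (Real.sqrt (2 * m + 1) * Real.sqrt n) := by
        field_simp
        ring

end H29FE
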