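import Pool.Agent.H29.FE.Total
import Pool.Agent.H29.FE.Sums

/-!
# Clause (E), module Count: the number of permutations with an invariant colouring and few orbits
-/

namespace H29FE

open Equiv Finset

/-- permutations with at most `T` orbits which have an invariant colouring of a given type -/
theorem markov {ι β : Type*} [Fintype ι] [DecidableEq ι] (n T : ℕ) (P : Finset β) (s : β → ι → ℕ)
    (G : Finset (Perm (Fin n))) (hG : ∀ g ∈ G, orb g ≤ T ∧ ∃ x ∈ P, ∃ c : Fin n → ι,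
      Inv g c ∧ ∀ i, (univ.filter fun y => c y = i).card = s x i) :
    (G.card : ℝ) ≤ 2 ^ T * ∑ x ∈ P, total (1 / 2) n (s x) := by
  have h1 : ∀ g ∈ G, (1 : ℝ) ≤ 2 ^ T * ∑ x ∈ P, ∑ c : Fin n → ι,
      cnd (Inv g c ∧ (∀ i, (univ.filter fun y => c y = i).card = s x i)) ((1 / 2) ^ orb g) := by
    intro g hg
    obtain ⟨h2, x, hx, c, hc⟩ := hG g hg
    have h3 : ∀ (y : β) (d : Fin n → ι), 0 ≤
        cnd (Inv g d ∧ (∀ i, (univ.filter fun z => d z = i).card = s y i)) ((1 / 2) ^ orb g) :=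
      fun y d => cnd_nonneg (by positivity)
    have h4 : (1 / 2 : ℝ) ^ orb g ≤ ∑ x ∈ P, ∑ c : Fin n → ι,
        cnd (Inv g c ∧ (∀ i, (univ.filter fun y => c y = i).card = s x i)) ((1 / 2) ^ orb g) := by
      refine le_trans ?_ (single_le_sum (f := fun x => ∑ c : Fin n → ι,
        cnd (Inv g c ∧ (∀ i, (univ.filter fun y => c y = i).card = s x i)) ((1 / 2) ^ orb g))
        (fun y _ => sum_nonneg fun d _ => h3 y d) hx)
      refine le_trans ?_ (single_le_sum (f := fun c : Fin n → ι =>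
        cnd (Inv g c ∧ (∀ i, (univ.filter fun y => c y = i).card = s x i)) ((1 / 2) ^ orb g))
        (fun d _ => h3 x d) (mem_univ c))
      rw [cnd_pos hc]
    have h5 : (1 : ℝ) ≤ 2 ^ T * (1 / 2) ^ orb g := by
      have h6 : (2 : ℝ) ^ orb g ≤ 2 ^ T := pow_le_pow_right₀ (by norm_num) h2
      have h7 : (2 : ℝ) ^ orb g * (1 / 2) ^ orb g = 1 := by rw [← mul_pow]; norm_num
      exact h7.symm.le.trans (mul_le_mul_of_nonneg_right h6 (by positivity))
    exact h5.trans (mul_le_mul_of_nonneg_left h4 (by positivity))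
  calc (G.card : ℝ) = ∑ g ∈ G, (1 : ℝ) := by rw [sum_const, nsmul_eq_mul, mul_one]
    _ ≤ ∑ g ∈ G, 2 ^ T * ∑ x ∈ P, ∑ c : Fin n → ι,
      cnd (Inv g c ∧ (∀ i, (univ.filter fun y => c y = i).card = s x i)) ((1 / 2) ^ orb g) :=
        sum_le_sum h1
    _ ≤ ∑ g, 2 ^ T * ∑ x ∈ P, ∑ c : Fin n → ι,
      cnd (Inv g c ∧ (∀ i, (univ.filter fun y => c y = i).card = s x i)) ((1 / 2) ^ orb g) :=
        sum_le_sum_of_subset_of_nonneg (subset_univ _) fun g _ _ => mul_nonneg (by positivity)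
          (sum_nonneg fun x _ => sum_nonneg fun c _ => cnd_nonneg (by positivity))
    _ = 2 ^ T * ∑ x ∈ P, total (1 / 2) n (s x) := by
        rw [← mul_sum, sum_comm]
        rfl

/-- permutations with more than `T` orbits -/
theorem many_orbits (n T : ℕ) (G : Finset (Perm (Fin n))) (hG : ∀ g ∈ G, T < orb g) :
    (G.card : ℝ) * (3 / 2) ^ (T + 1) ≤ n.factorial * Real.sqrt (2 * n + 1) := by
  have h0 : total (3 / 2) n (fun _ : Fin 1 => n) = ∑ g : Perm (Fin n), (3 / 2 : ℝ) ^ orb g := by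
    rw [total]
    refine sum_congr rfl fun g _ => ?_
    rw [Fintype.sum_unique]
    refine cnd_pos ⟨fun x => Subsingleton.elim _ _, fun i => ?_⟩ _
    rw [filter_true_of_mem fun x _ => Subsingleton.elim _ _, card_univ, Fintype.card_fin]
  have h1 := total_eq (3 / 2) n (fun _ : Fin 1 => n) (by simp)
  rw [h0, Fin.prod_univ_one] at h1
  calc (G.card : ℝ) * (3 / 2) ^ (T + 1) = ∑ g ∈ G, (3 / 2 : ℝ) ^ (T + 1) := by
        rw [sum_const, nsmul_eq_mul]
    _ ≤ ∑ g ∈ G, (3 / 2 : ℝ) ^ orb g :=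
        sum_le_sum fun g hg => pow_le_pow_right₀ (by norm_num) (hG g hg)
    _ ≤ ∑ g, (3 / 2 : ℝ) ^ orb g :=
        sum_le_sum_of_subset_of_nonneg (subset_univ _) fun g _ _ => by positivity
    _ = n.factorial * rf (3 / 2) n := h1
    _ ≤ n.factorial * Real.sqrt (2 * n + 1) :=
        mul_le_mul_of_nonneg_left (rf_three_le n) (by positivity)

/-- the class sizes `(a, a, a, b, b)` -/
theorem count1 (n T : ℕ) (hn : 0 < n) (G : Finset (Perm (Fin n))) (hG : ∀ g ∈ G, orb g ≤ T ∧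
    ∃ (a b : ℕ) (c : Fin n → Fin 5), 3 * a + 2 * b = n ∧ Inv g c ∧
      ∀ i, (univ.filter fun x => c x = i).card = (![a, a, a, b, b] : Fin 5 → ℕ) i) :
    (G.card : ℝ) ≤ n.factorial * (2 ^ T * (3 / n * (1 + Real.log (n + 2)))) := by
  have h1 := markov n T (((range (n + 1)) ×ˢ (range (n + 1))).filter
    (fun x : ℕ × ℕ => 3 * x.1 + 2 * x.2 = n)) (fun x => (![x.1, x.1, x.1, x.2, x.2] : Fin 5 → ℕ)) G
    (fun g hg => by
      obtain ⟨h2, a, b, c, h3, h4⟩ := hG g hg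
      refine ⟨h2, (a, b), mem_filter.2 ⟨mem_product.2 ⟨mem_range.2 (by omega),
        mem_range.2 (by omega)⟩, h3⟩, c, h4⟩)
  refine h1.trans ?_
  have h2 : ∑ x ∈ ((range (n + 1)) ×ˢ (range (n + 1))).filter (fun x : ℕ × ℕ => 3 * x.1 + 2 * x.2 = n),
      total (1 / 2) n (![x.1, x.1, x.1, x.2, x.2] : Fin 5 → ℕ) = n.factorial *
      ∑ x ∈ ((range (n + 1)) ×ˢ (range (n + 1))).filter (fun x : ℕ × ℕ => 3 * x.1 + 2 * x.2 = n),
        rf (1 / 2) x.1 ^ 3 * rf (1 / 2) x.2 ^ 2 := by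
    rw [mul_sum]
    refine sum_congr rfl fun x hx => ?_
    have hx' := (mem_filter.1 hx).2
    rw [total_eq _ _ _ (by
      rw [Fin.sum_univ_five]
      show x.1 + x.1 + x.1 + x.2 + x.2 = n
      omega), Fin.prod_univ_five]
    show _ * (rf (1 / 2) x.1 * rf (1 / 2) x.1 * rf (1 / 2) x.1 * rf (1 / 2) x.2 * rf (1 / 2) x.2) = _
    ring
  rw [h2, mul_left_comm]
  exact mul_le_mul_of_nonneg_left (mul_le_mul_of_nonneg_left (sum1_le n hn) (by positivity))
    (by positivity)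

/-- the class sizes `(a, a, a, n - 3 a)`, `m ≤ a` -/
theorem count2 (n T m : ℕ) (hn : 0 < n) (G : Finset (Perm (Fin n))) (hG : ∀ g ∈ G, orb g ≤ T ∧
    ∃ (a : ℕ) (c : Fin n → Fin 4), m ≤ a ∧ 3 * a ≤ n ∧ Inv g c ∧
      ∀ i, (univ.filter fun x => c x = i).card = (![a, a, a, n - 3 * a] : Fin 4 → ℕ) i) :
    (G.card : ℝ) ≤ n.factorial * (2 ^ T * ((10 + Real.log (n + 2)) /
      (Real.sqrt (2 * m + 1) * Real.sqrt n))) := by
  have h1 := markov n T ((range (n + 1)).filter (fun a => m ≤ a ∧ 3 * a ≤ n))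
    (fun a => (![a, a, a, n - 3 * a] : Fin 4 → ℕ)) G
    (fun g hg => by
      obtain ⟨h2, a, c, h3, h4, h5⟩ := hG g hg
      refine ⟨h2, a, mem_filter.2 ⟨mem_range.2 (by omega), h3, h4⟩, c, h5⟩)
  refine h1.trans ?_
  have h2 : ∑ a ∈ (range (n + 1)).filter (fun a => m ≤ a ∧ 3 * a ≤ n),
      total (1 / 2) n (![a, a, a, n - 3 * a] : Fin 4 → ℕ) = n.factorial *
      ∑ a ∈ (range (n + 1)).filter (fun a => m ≤ a ∧ 3 * a ≤ n),
        rf (1 / 2) a ^ 3 * rf (1 / 2) (n - 3 * a) := by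
    rw [mul_sum]
    refine sum_congr rfl fun x hx => ?_
    have hx' := (mem_filter.1 hx).2.2
    rw [total_eq _ _ _ (by
      rw [Fin.sum_univ_four]
      show x + x + x + (n - 3 * x) = n
      omega), Fin.prod_univ_four]
    show _ * (rf (1 / 2) x * rf (1 / 2) x * rf (1 / 2) x * rf (1 / 2) (n - 3 * x)) = _
    ring
  rw [h2, mul_left_comm]
  exact mul_le_mul_of_nonneg_left (mul_le_mul_of_nonneg_left (sum2_le n m hn) (by positivity))
    (by positivity)

end H29FE
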