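import Pool.Agent.H29.FE.Orb
import Pool.Agent.H85.FD.Parts
import Pool.Agent.H89.FrobD.PermCnt

/-!
# Clause (E), module Lift: a splitting of the cycle lengths gives an invariant colouring
-/

namespace H29FE

open Equiv Finset

/-- a decomposition of the multiset of the values of `len` comes from a labelling -/
theorem lab_of_sum {Q : Type*} [DecidableEq Q] {m : ℕ} (len : Q → ℕ) (S : Finset Q) :
    ∀ (A : Fin m → Multiset ℕ), S.val.map len = ∑ i, A i → 0 < m →
      ∃ lab : Q → Fin m, ∀ i, (S.filter fun q => lab q = i).val.map len = A i := by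
  classical
  induction S using Finset.induction_on with
  | empty =>
    intro A hA hm
    refine ⟨fun _ => ⟨0, hm⟩, fun i => ?_⟩
    have h1 : ∑ i, A i = 0 := hA.symm
    have h2 : A i ≤ ∑ i, A i := single_le_sum (f := A) (fun _ _ => Multiset.zero_le _) (mem_univ i)
    rw [h1] at h2
    rw [filter_empty]
    exact (Multiset.le_zero.1 h2).symm
  | insert q S hq ih =>
    intro A hA hm
    rw [insert_val_of_notMem hq, Multiset.map_cons] at hA
    have h1 : len q ∈ ∑ i, A i := by rw [← hA]; exact Multiset.mem_cons_self _ _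
    obtain ⟨i₀, -, hi₀⟩ := Multiset.mem_sum.1 h1
    obtain ⟨t, ht⟩ := Multiset.exists_cons_of_mem hi₀
    have h2 : ∑ i, A i = len q ::ₘ ∑ i, Function.update A i₀ t i := by
      rw [← add_sum_erase univ A (mem_univ i₀), ← add_sum_erase univ (Function.update A i₀ t) (mem_univ i₀),
        Function.update_self, ht, Multiset.cons_add]
      congr 2
      exact sum_congr rfl fun i hi => (Function.update_of_ne (ne_of_mem_erase hi) _ _).symm
    rw [h2, Multiset.cons_inj_right] at hA
    obtain ⟨lab, hlab⟩ := ih _ hA hm
    refine ⟨Function.update lab q i₀, fun i => ?_⟩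
    have h3 : S.filter (fun x => Function.update lab q i₀ x = i) = S.filter (fun x => lab x = i) := by
      refine filter_congr fun x hx => ?_
      have : x ≠ q := fun h => hq (h ▸ hx)
      rw [Function.update_of_ne this]
    rw [filter_insert, Function.update_self, h3]
    by_cases hi : i₀ = i
    · subst hi
      rw [if_pos rfl, insert_val_of_notMem (fun h => hq (mem_filter.1 h).1), Multiset.map_cons,
        hlab i₀, Function.update_self, ht]
    · rw [if_neg hi, hlab i, Function.update_of_ne (Ne.symm hi)]

section

variable {n : ℕ} (g : Perm (Fin n))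

/-- the orbit of `x` has as many elements as the period of `x` -/
theorem card_same (x : Fin n) [DecidablePred fun y => g.SameCycle x y] :
    (univ.filter fun y => g.SameCycle x y).card = Function.minimalPeriod g x := by
  classical
  by_cases hx : g x = x
  · have h1 : Function.minimalPeriod g x = 1 := Function.minimalPeriod_eq_one_iff_isFixedPt.2 hx
    rw [h1, card_eq_one]
    refine ⟨x, ext fun y => ?_⟩
    rw [mem_filter, mem_singleton]
    constructor
    · rintro ⟨-, k, hk⟩
      rw [← hk]
      exact Perm.zpow_apply_eq_self_of_apply_eq_self hx k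
    · rintro rfl
      exact ⟨mem_univ _, Perm.SameCycle.refl g y⟩
  · rw [Pool.Agent.H89.FrobD.minimalPeriod_eq_card g hx]
    congr 1
    ext y
    rw [mem_filter, Perm.mem_support_cycleOf_iff]
    exact ⟨fun h => ⟨h.2, Perm.mem_support.2 hx⟩, fun h => ⟨mem_univ _, h.1⟩⟩

open Classical in
/-- the number of elements of an orbit -/
noncomputable def len (q : Quotient (Perm.SameCycle.setoid g)) : ℕ :=
  (univ.filter fun y : Fin n => (Quotient.mk (Perm.SameCycle.setoid g) y) = q).card

theorem len_mk (x : Fin n) : len g (Quotient.mk (Perm.SameCycle.setoid g) x) =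
    Function.minimalPeriod g x := by
  classical
  rw [← card_same g x, len]
  congr 1
  ext y
  rw [mem_filter, mem_filter]
  constructor
  · rintro ⟨-, h⟩
    exact ⟨mem_univ _, (Quotient.exact h : g.SameCycle y x).symm⟩
  · rintro ⟨-, h⟩
    exact ⟨mem_univ _, Quotient.sound (s := Perm.SameCycle.setoid g) (show g.SameCycle y x from h.symm)⟩

noncomputable instance : Fintype (Quotient (Perm.SameCycle.setoid g)) := Fintype.ofFinite _

theorem parts_eq : g.partition.parts = (univ : Finset (Quotient (Perm.SameCycle.setoid g))).val.map (len g) := by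
  classical
  refine Multiset.ext.2 fun d => ?_
  rcases Nat.eq_zero_or_pos d with rfl | hd
  · rw [Multiset.count_eq_zero_of_notMem fun h => absurd (g.partition.parts_pos h) (lt_irrefl 0),
      Multiset.count_eq_zero_of_notMem]
    intro h
    obtain ⟨q, -, hq⟩ := Multiset.mem_map.1 h
    induction q using Quotient.inductionOn' with
    | h x =>
      have h1 : len g (Quotient.mk (Perm.SameCycle.setoid g) x) = 0 := hq
      rw [len_mk] at h1
      exact absurd h1 (Function.minimalPeriod_pos_of_mem_periodicPts
        (g.injective.mem_periodicPts x)).ne'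
  · refine Nat.eq_of_mul_eq_mul_left hd ?_
    rw [Pool.Agent.H89.FrobD.perm_count _ d hd, Multiset.count_map]
    have h1 : (Multiset.filter (fun a => d = len g a)
        (univ : Finset (Quotient (Perm.SameCycle.setoid g))).val).card =
        (univ.filter fun a => len g a = d).card := by
      rw [card_def, filter_val]
      congr 2
      funext a
      exact propext eq_comm
    rw [h1]
    have h2 : (univ.filter fun x => Function.minimalPeriod g x = d).card =
        ∑ q ∈ univ.filter (fun a => len g a = d), len g q := by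
      rw [card_eq_sum_card_fiberwise (f := fun x => Quotient.mk (Perm.SameCycle.setoid g) x)
        (t := univ.filter (fun a => len g a = d))]
      · refine sum_congr rfl fun q hq => ?_
        rw [len, filter_filter]
        congr 1
        ext x
        simp only [mem_filter, mem_univ, true_and]
        constructor
        · rintro ⟨-, h⟩
          exact h
        · intro h
          refine ⟨?_, h⟩
          rw [← len_mk, h]
          exact (mem_filter.1 hq).2
      · intro x hx
        have hx' := (mem_filter.1 (mem_coe.1 hx)).2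
        rw [mem_coe, mem_filter]
        exact ⟨mem_univ _, by rw [len_mk]; exact hx'⟩
    rw [h2, sum_congr rfl fun q hq => (mem_filter.1 hq).2, sum_const, smul_eq_mul, mul_comm]

/-- an invariant colouring from a decomposition of the cycle lengths -/
theorem colour_of_sum {m : ℕ} (hm : 0 < m) (A : Fin m → Multiset ℕ)
    (hA : g.partition.parts = ∑ i, A i) :
    ∃ c : Fin n → Fin m, Inv g c ∧ ∀ i, (univ.filter fun x => c x = i).card = (A i).sum := by
  classical
  rw [parts_eq] at hA
  obtain ⟨lab, hlab⟩ := lab_of_sum (len g) univ A hA hm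
  refine ⟨fun x => lab (Quotient.mk (Perm.SameCycle.setoid g) x), fun x => ?_, fun i => ?_⟩
  · exact congrArg lab (Quotient.sound (s := Perm.SameCycle.setoid g) (show g.SameCycle (g x) x from
      (Perm.sameCycle_apply_left).2 (Perm.SameCycle.refl g x)))
  · rw [← hlab i, card_eq_sum_card_fiberwise (f := fun x => Quotient.mk (Perm.SameCycle.setoid g) x)
        (t := univ.filter (fun q => lab q = i))]
    · show _ = ∑ q ∈ univ.filter (fun q => lab q = i), len g q
      refine sum_congr rfl fun q hq => ?_
      rw [len, filter_filter]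
      congr 1
      ext x
      simp only [mem_filter, mem_univ, true_and]
      constructor
      · rintro ⟨-, h⟩
        exact h
      · intro h
        refine ⟨?_, h⟩
        rw [h]
        exact (mem_filter.1 hq).2
    · intro x hx
      rw [mem_coe, mem_filter]
      exact ⟨mem_univ _, (mem_filter.1 (mem_coe.1 hx)).2⟩

theorem lift1 (h : H85FD.SplitsN 1 g.partition.parts) :
    ∃ (a b : ℕ) (c : Fin n → Fin 5), 3 * a + 2 * b = n ∧ Inv g c ∧
      ∀ i, (univ.filter fun x => c x = i).card = (![a, a, a, b, b] : Fin 5 → ℕ) i := by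
  obtain ⟨A, B, C, hM, ⟨A', rfl, hA⟩, ⟨B', rfl, hB⟩, -, -, hC⟩ := h
  rw [hC (by norm_num), add_zero] at hM
  have h1 : g.partition.parts = ∑ i, (![A' 0, A' 1, A' 2, B' 0, B' 1] : Fin 5 → Multiset ℕ) i := by
    rw [hM, Fin.sum_univ_three, Fin.sum_univ_two, Fin.sum_univ_five]
    show _ = A' 0 + A' 1 + A' 2 + B' 0 + B' 1
    abel
  obtain ⟨c, hc, hcard⟩ := colour_of_sum g (by norm_num) _ h1
  have hA' : ∀ i, (A' i).sum = (A' 0).sum := fun i => by simpa using hA i 0
  have hB' : ∀ i, (B' i).sum = (B' 0).sum := fun i => by simpa using hB i 0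
  refine ⟨(A' 0).sum, (B' 0).sum, c, ?_, hc, fun i => ?_⟩
  · have h2 := g.partition.parts_sum
    rw [h1, Fin.sum_univ_five, Fintype.card_fin] at h2
    have h3 : (A' 0 + A' 1 + A' 2 + B' 0 + B' 1).sum = n := h2
    rw [Multiset.sum_add, Multiset.sum_add, Multiset.sum_add, Multiset.sum_add, hA' 1, hA' 2, hB' 1] at h3
    omega
  · rw [hcard i]
    fin_cases i
    · rfl
    · exact hA' 1
    · exact hA' 2
    · rfl
    · exact hB' 1

theorem lift2 (h : H85FD.SplitsN 2 g.partition.parts) {k : ℕ}
    (hk : k ∈ g.partition.parts) (h2 : ¬ 2 ∣ k) (h3 : ¬ 3 ∣ k) :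
    ∃ (a : ℕ) (c : Fin n → Fin 4), k ≤ a ∧ 3 * a ≤ n ∧ Inv g c ∧
      ∀ i, (univ.filter fun x => c x = i).card = (![a, a, a, n - 3 * a] : Fin 4 → ℕ) i := by
  obtain ⟨A, B, C, hM, ⟨A', rfl, hA⟩, -, hB, hC, -⟩ := h
  have h1 : g.partition.parts = ∑ i, (![A' 0, A' 1, A' 2, B + C] : Fin 4 → Multiset ℕ) i := by
    rw [hM, Fin.sum_univ_three, Fin.sum_univ_four]
    show _ = A' 0 + A' 1 + A' 2 + (B + C)
    abel
  obtain ⟨c, hc, hcard⟩ := colour_of_sum g (by norm_num) _ h1
  have hA' : ∀ i, (A' i).sum = (A' 0).sum := fun i => by simpa using hA i 0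
  have h4 : 3 * (A' 0).sum + (B + C).sum = n := by
    have h2 := g.partition.parts_sum
    rw [h1, Fin.sum_univ_four, Fintype.card_fin] at h2
    have h3 : (A' 0 + A' 1 + A' 2 + (B + C)).sum = n := h2
    rw [Multiset.sum_add, Multiset.sum_add, Multiset.sum_add, hA' 1, hA' 2] at h3
    omega
  refine ⟨(A' 0).sum, c, ?_, by omega, hc, fun i => ?_⟩
  · rw [hM, Multiset.mem_add, Multiset.mem_add] at hk
    rcases hk with (hk | hk) | hk
    · obtain ⟨i, -, hi⟩ := Multiset.mem_sum.1 hk
      rw [← hA' i]
      exact Multiset.single_le_sum (fun _ _ => Nat.zero_le _) k hi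
    · exact absurd (hB rfl k hk) h3
    · exact absurd (hC k hk).two_dvd h2
  · rw [hcard i]
    fin_cases i
    · rfl
    · exact hA' 1
    · exact hA' 2
    · show (B + C).sum = n - 3 * (A' 0).sum
      omega

end

end H29FE
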