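import Pool.Agent.H29.FE.Lim
import Pool.Agent.H29.FE.Lift
import Pool.Agent.H89.FE.NoLong

/-!
# Clause (E), module Few: few permutations have cycle lengths which split
-/

namespace H29FE

open Equiv Finset Filter Topology

/-- few permutations of `Fin n` split -/
theorem few_fin {δ : ℝ} (hδ : 0 < δ) : ∃ n₀ : ℕ, ∀ n : ℕ, n₀ ≤ n →
    (Nat.card {g : Perm (Fin n) // H85FD.SplitsN 1 g.partition.parts ∨
      H85FD.SplitsN 2 g.partition.parts} : ℝ) ≤ δ * n.factorial := by
  classical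
  have hδ4 : 0 < δ / 4 := by positivity
  obtain ⟨l1, H1⟩ := lim_orbits hδ4
  obtain ⟨l2, H2⟩ := lim_one hδ4
  obtain ⟨l3, H3⟩ := lim_two hδ4
  obtain ⟨l4, H4⟩ := lim_three (4 / δ)
  refine ⟨2 ^ (max (max l1 l2) (max l3 l4)), fun n hn => ?_⟩
  have hn0 : n ≠ 0 := by
    have : 1 ≤ 2 ^ (max (max l1 l2) (max l3 l4)) := Nat.one_le_two_pow
    omega
  set l := Nat.log 2 n with hl
  have hl1 : max (max l1 l2) (max l3 l4) ≤ l := Nat.le_log_of_pow_le (by norm_num) hn
  have hn1 : 2 ^ l ≤ n := Nat.pow_log_le_self 2 hn0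
  have hn2 : n < 2 ^ (l + 1) := Nat.lt_pow_succ_log_self (by norm_num) n
  have b1 := H1 l n (le_trans (le_trans (le_max_left _ _) (le_max_left _ _)) hl1) hn2
  have b2 := H2 l n (le_trans (le_trans (le_max_right _ _) (le_max_left _ _)) hl1) hn1 hn2
  have b3 := H3 l n (le_trans (le_trans (le_max_left _ _) (le_max_right _ _)) hl1) hn1 hn2
  have b4 := H4 l n (le_trans (le_trans (le_max_right _ _) (le_max_right _ _)) hl1) hn1
  set T := 7 * l / 8 with hT
  set m := 2 ^ (4 * l / 5) with hm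
  have hf : (0 : ℝ) < n.factorial := by exact_mod_cast Nat.factorial_pos n
  -- the four sets
  set A1 : Finset (Perm (Fin n)) := univ.filter fun g => T < orb g with hA1
  set A2 : Finset (Perm (Fin n)) := univ.filter fun g =>
    orb g ≤ T ∧ H85FD.SplitsN 1 g.partition.parts with hA2
  set A3 : Finset (Perm (Fin n)) := univ.filter fun g => orb g ≤ T ∧
    (H85FD.SplitsN 2 g.partition.parts ∧ ∃ k ∈ g.partition.parts, m ≤ k ∧ ¬ 2 ∣ k ∧ ¬ 3 ∣ k) with hA3
  set A4 : Finset (Perm (Fin n)) := univ.filter fun g =>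
    ∀ k ∈ g.partition.parts, m ≤ k → (2 ∣ k ∨ 3 ∣ k) with hA4
  have c1 : (A1.card : ℝ) ≤ δ / 4 * n.factorial := by
    have h := many_orbits n T A1 (fun g hg => (mem_filter.1 hg).2)
    have h1 : (0 : ℝ) < (3 / 2) ^ (T + 1) := by positivity
    refine le_of_mul_le_mul_right (h.trans ?_) h1
    calc (n.factorial : ℝ) * Real.sqrt (2 * n + 1) ≤ n.factorial * (δ / 4 * (3 / 2) ^ (T + 1)) :=
          mul_le_mul_of_nonneg_left b1 hf.le
      _ = δ / 4 * n.factorial * (3 / 2) ^ (T + 1) := by ring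
  have c2 : (A2.card : ℝ) ≤ δ / 4 * n.factorial := by
    refine (count1 n T (by omega) A2 (fun g hg => ?_)).trans ?_
    · obtain ⟨h1, h2⟩ := (mem_filter.1 hg).2
      exact ⟨h1, lift1 g h2⟩
    · rw [mul_comm]
      exact mul_le_mul_of_nonneg_right b2 hf.le
  have c3 : (A3.card : ℝ) ≤ δ / 4 * n.factorial := by
    refine (count2 n T m (by omega) A3 (fun g hg => ?_)).trans ?_
    · obtain ⟨h1, h2, k, hk, h3, h4, h5⟩ := (mem_filter.1 hg).2
      obtain ⟨a, c, h6, h7, h8⟩ := lift2 g h2 hk h4 h5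
      exact ⟨h1, a, c, h3.trans h6, h7, h8⟩
    · rw [mul_comm]
      exact mul_le_mul_of_nonneg_right b3 hf.le
  have c4 : (A4.card : ℝ) ≤ δ / 4 * n.factorial := by
    have h := Pool.Agent.H89.FE.no_long n m Nat.one_le_two_pow
    rw [Nat.card_eq_fintype_card, Fintype.card_subtype] at h
    have h1 : (A4.card : ℝ) * (4 / δ) ≤ n.factorial :=
      (mul_le_mul_of_nonneg_left b4 (Nat.cast_nonneg _)).trans h
    rw [mul_div_assoc', div_le_iff₀ hδ] at h1
    linarith
  have hsub : (univ.filter fun g : Perm (Fin n) => H85FD.SplitsN 1 g.partition.parts ∨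
      H85FD.SplitsN 2 g.partition.parts) ⊆ A1 ∪ (A2 ∪ (A3 ∪ A4)) := by
    intro g hg
    have hg' := (mem_filter.1 hg).2
    rw [mem_union, mem_union, mem_union]
    rcases lt_or_ge T (orb g) with h1 | h1
    · exact Or.inl (mem_filter.2 ⟨mem_univ _, h1⟩)
    rcases hg' with h2 | h2
    · exact Or.inr (Or.inl (mem_filter.2 ⟨mem_univ _, h1, h2⟩))
    by_cases h3 : ∀ k ∈ g.partition.parts, m ≤ k → (2 ∣ k ∨ 3 ∣ k)
    · exact Or.inr (Or.inr (Or.inr (mem_filter.2 ⟨mem_univ _, h3⟩)))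
    · push Not at h3
      exact Or.inr (Or.inr (Or.inl (mem_filter.2 ⟨mem_univ _, h1, h2, h3⟩)))
  rw [Nat.card_eq_fintype_card, Fintype.card_subtype]
  have hc : ((univ.filter fun g : Perm (Fin n) => H85FD.SplitsN 1 g.partition.parts ∨
      H85FD.SplitsN 2 g.partition.parts).card : ℝ) ≤ A1.card + (A2.card + (A3.card + A4.card)) := by
    have h1 := (card_le_card hsub).trans ((card_union_le _ _).trans (Nat.add_le_add_left
      ((card_union_le _ _).trans (Nat.add_le_add_left (card_union_le _ _) _)) _))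
    exact_mod_cast h1
  linarith

end H29FE
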