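import Pool.Agent.H29.FE.Few
import Pool.Agent.H89.FrobD.PermCnt

/-!
# Clause (E), module Gen: few permutations of a finite type have cycle lengths which split
-/

namespace H29FE

open Equiv Finset

theorem period_permCongr {α β : Type*} (e : α ≃ β) (g : Perm α) (x : α) :
    Function.minimalPeriod (e.permCongr g) (e x) = Function.minimalPeriod g x := by
  rw [Function.minimalPeriod_eq_minimalPeriod_iff]
  intro n
  have h : ∀ (n : ℕ) (y : α), (e.permCongr g)^[n] (e y) = e (g^[n] y) := by
    intro n
    induction n with
    | zero => intro y; rfl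
    | succ n ih =>
      intro y
      rw [Function.iterate_succ_apply, Function.iterate_succ_apply]
      have : (e.permCongr g) (e y) = e (g y) := by simp
      rw [this, ih]
  rw [Function.IsPeriodicPt, Function.IsFixedPt, Function.IsPeriodicPt, Function.IsFixedPt, h]
  exact e.apply_eq_iff_eq

theorem parts_permCongr {α β : Type*} [Fintype α] [DecidableEq α] [Fintype β] [DecidableEq β]
    (e : α ≃ β) (g : Perm α) : (e.permCongr g).partition.parts = g.partition.parts := by
  refine Multiset.ext.2 fun d => ?_
  rcases Nat.eq_zero_or_pos d with rfl | hd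
  · rw [Multiset.count_eq_zero_of_notMem fun h => absurd ((e.permCongr g).partition.parts_pos h)
      (lt_irrefl 0), Multiset.count_eq_zero_of_notMem fun h => absurd (g.partition.parts_pos h)
      (lt_irrefl 0)]
  · refine Nat.eq_of_mul_eq_mul_left hd ?_
    rw [Pool.Agent.H89.FrobD.perm_count _ d hd, Pool.Agent.H89.FrobD.perm_count _ d hd]
    symm
    refine card_bij (fun x _ => e x) (fun x hx => ?_) (fun x _ y _ h => e.injective h) fun y hy => ?_
    · rw [mem_filter] at hx ⊢
      exact ⟨mem_univ _, by rw [period_permCongr]; exact hx.2⟩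
    · refine ⟨e.symm y, ?_, e.apply_symm_apply y⟩
      rw [mem_filter] at hy ⊢
      refine ⟨mem_univ _, ?_⟩
      rw [← period_permCongr e, e.apply_symm_apply]
      exact hy.2

/-- few permutations have cycle lengths which split -/
theorem few_split {δ : ℝ} (hδ : 0 < δ) : ∃ d₀ : ℕ, ∀ (α : Type) [Fintype α] [DecidableEq α],
    d₀ ≤ Fintype.card α →
    (Nat.card {g : Perm α // H85FD.SplitsN 1 g.partition.parts ∨
      H85FD.SplitsN 2 g.partition.parts} : ℝ) ≤ δ * (Fintype.card α).factorial := by
  obtain ⟨n₀, h⟩ := few_fin hδ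
  refine ⟨n₀, fun α _ _ hα => ?_⟩
  have e : α ≃ Fin (Fintype.card α) := Fintype.equivFin α
  have h1 := h (Fintype.card α) hα
  rwa [← Nat.card_congr (Equiv.subtypeEquiv (p := fun g : Perm α =>
    H85FD.SplitsN 1 g.partition.parts ∨ H85FD.SplitsN 2 g.partition.parts) e.permCongr
    (fun g => by rw [parts_permCongr]))] at h1

end H29FE
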