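import Pool.Agent.H29.FE.Count

/-!
# Clause (E), module Lim: the four bounds tend to zero
-/

namespace H29FE

open Finset Filter Topology

theorem lim_pow (c : ℕ) (k : ℕ) (A : ℝ) :
    Tendsto (fun l : ℕ => A * ((l : ℝ) + c) ^ k / 2 ^ l) atTop (𝓝 0) := by
  have h1 := tendsto_pow_const_div_const_pow_of_one_lt k (one_lt_two : (1 : ℝ) < 2)
  have h2 := (h1.comp (tendsto_add_atTop_nat c)).const_mul (A * 2 ^ c)
  rw [mul_zero] at h2
  refine h2.congr fun l => ?_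
  show A * 2 ^ c * ((((l + c : ℕ) : ℝ)) ^ k / 2 ^ (l + c)) = _
  rw [pow_add]
  push_cast
  field_simp

/-- `log (n + 2) ≤ l + 2` if `n < 2 ^ (l + 1)` -/
theorem log_le_of_lt {n l : ℕ} (h : n < 2 ^ (l + 1)) : Real.log (n + 2) ≤ l + 2 := by
  have h1 : (n : ℝ) + 2 ≤ 2 ^ (l + 2) := by
    have h2 : n + 2 ≤ 2 ^ (l + 2) := by
      have h3 : 1 ≤ 2 ^ l := Nat.one_le_two_pow
      rw [pow_add] at h ⊢
      omega
    exact_mod_cast h2
  have h3 := Real.log_le_log (by positivity) h1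
  rw [Real.log_pow] at h3
  have h4 := Real.log_two_lt_d9
  have h5 : (0 : ℝ) ≤ ((l + 2 : ℕ) : ℝ) := Nat.cast_nonneg _
  push_cast at h3 h5
  nlinarith

/-- more than `T` orbits -/
theorem lim_orbits {ε : ℝ} (hε : 0 < ε) : ∃ l₀ : ℕ, ∀ l n : ℕ, l₀ ≤ l → n < 2 ^ (l + 1) →
    Real.sqrt (2 * n + 1) ≤ ε * (3 / 2) ^ (7 * l / 8 + 1) := by
  have h1 := lim_pow 0 0 (2 ^ 96)
  have h2 := (h1.eventually (gt_mem_nhds (show 0 < ε ^ 96 by positivity))).exists_forall_of_atTop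
  obtain ⟨l₀, h3⟩ := h2
  refine ⟨l₀, fun l n hl hn => ?_⟩
  have h4 := h3 l hl
  rw [pow_zero, mul_one, div_lt_iff₀ (by positivity)] at h4
  refine le_of_pow_le_pow_left₀ (n := 96) (by norm_num) (by positivity) ?_
  have h5 : Real.sqrt (2 * n + 1) ^ 96 = (2 * (n : ℝ) + 1) ^ 48 := by
    rw [show 96 = 2 * 48 from rfl, pow_mul, Real.sq_sqrt (by positivity)]
  have h6 : (2 * (n : ℝ) + 1) ≤ 2 ^ (l + 2) := by
    have h7 : 2 * n + 1 ≤ 2 ^ (l + 2) := by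
      rw [pow_succ]
      omega
    exact_mod_cast h7
  have h8 : (2 : ℝ) ^ (49 * l) ≤ ((3 / 2) ^ (7 * l / 8 + 1)) ^ 96 := by
    have h9 : (2 : ℝ) ^ 7 ≤ (3 / 2) ^ 12 := by norm_num
    calc (2 : ℝ) ^ (49 * l) ≤ 2 ^ (7 * (8 * (7 * l / 8 + 1))) :=
          pow_le_pow_right₀ (by norm_num) (by omega)
      _ = (2 ^ 7) ^ (8 * (7 * l / 8 + 1)) := by rw [pow_mul]
      _ ≤ ((3 / 2) ^ 12) ^ (8 * (7 * l / 8 + 1)) := pow_le_pow_left₀ (by positivity) h9 _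
      _ = ((3 / 2) ^ (7 * l / 8 + 1)) ^ 96 := by
          rw [← pow_mul, ← pow_mul]
          congr 1
          ring
  rw [h5, mul_pow]
  calc (2 * (n : ℝ) + 1) ^ 48 ≤ (2 ^ (l + 2)) ^ 48 := pow_le_pow_left₀ (by positivity) h6 _
    _ = 2 ^ 96 * 2 ^ (48 * l) := by rw [← pow_mul, ← pow_add]; congr 1; ring
    _ ≤ (ε ^ 96 * 2 ^ l) * 2 ^ (48 * l) := mul_le_mul_of_nonneg_right h4.le (by positivity)
    _ = ε ^ 96 * 2 ^ (49 * l) := by rw [mul_assoc, ← pow_add]; congr 2; ring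
    _ ≤ _ := mul_le_mul_of_nonneg_left h8 (by positivity)

/-- the first sum -/
theorem lim_one {ε : ℝ} (hε : 0 < ε) : ∃ l₀ : ℕ, ∀ l n : ℕ, l₀ ≤ l → 2 ^ l ≤ n → n < 2 ^ (l + 1) →
    2 ^ (7 * l / 8) * (3 / n * (1 + Real.log (n + 2))) ≤ ε := by
  have h1 := lim_pow 3 8 (3 ^ 8)
  obtain ⟨l₀, h3⟩ := (h1.eventually (gt_mem_nhds (show 0 < ε ^ 8 by positivity))).exists_forall_of_atTop
  refine ⟨l₀, fun l n hl hn1 hn => ?_⟩
  have h4 := h3 l hl
  rw [div_lt_iff₀ (by positivity)] at h4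
  have hn2 : (2 : ℝ) ^ l ≤ n := by exact_mod_cast hn1
  have hn0 : (0 : ℝ) < n := lt_of_lt_of_le (by positivity) hn2
  have h5 := log_le_of_lt hn
  have hl0 : 0 ≤ Real.log (n + 2) := Real.log_nonneg (by linarith)
  refine le_of_pow_le_pow_left₀ (n := 8) (by norm_num) hε.le ?_
  have h6 : 2 ^ (7 * l / 8) * (3 / n * (1 + Real.log (n + 2))) ≤
      2 ^ (7 * l / 8) * (3 * (l + (3 : ℕ))) / 2 ^ l := by
    rw [mul_div_assoc]
    refine mul_le_mul_of_nonneg_left ?_ (by positivity)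
    rw [div_mul_eq_mul_div]
    refine div_le_div₀ (by positivity) ?_ (by positivity) hn2
    push_cast
    linarith
  refine (pow_le_pow_left₀ (by positivity) h6 8).trans ?_
  rw [div_pow, div_le_iff₀ (by positivity), mul_pow, mul_pow]
  have h7 : ((2 : ℝ) ^ (7 * l / 8)) ^ 8 ≤ 2 ^ (7 * l) := by
    rw [← pow_mul]
    exact pow_le_pow_right₀ (by norm_num) (by omega)
  calc ((2 : ℝ) ^ (7 * l / 8)) ^ 8 * (3 ^ 8 * (l + (3 : ℕ)) ^ 8)
      ≤ 2 ^ (7 * l) * (ε ^ 8 * 2 ^ l) :=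
        mul_le_mul h7 h4.le (by positivity) (by positivity)
    _ = ε ^ 8 * (2 ^ l) ^ 8 := by
        rw [← pow_mul, mul_comm, mul_assoc, ← pow_add]
        congr 2
        ring

/-- the second sum -/
theorem lim_two {ε : ℝ} (hε : 0 < ε) : ∃ l₀ : ℕ, ∀ l n : ℕ, l₀ ≤ l → 2 ^ l ≤ n → n < 2 ^ (l + 1) →
    2 ^ (7 * l / 8) * ((10 + Real.log (n + 2)) /
      (Real.sqrt (2 * (2 ^ (4 * l / 5) : ℕ) + 1) * Real.sqrt n)) ≤ ε := by
  have h1 := lim_pow 12 40 1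
  obtain ⟨l₀, h3⟩ := (h1.eventually (gt_mem_nhds (show 0 < ε ^ 40 by positivity))).exists_forall_of_atTop
  refine ⟨l₀, fun l n hl hn1 hn => ?_⟩
  have h4 := h3 l hl
  rw [div_lt_iff₀ (by positivity), one_mul] at h4
  have hn2 : (2 : ℝ) ^ l ≤ n := by exact_mod_cast hn1
  have hn0 : (0 : ℝ) < n := lt_of_lt_of_le (by positivity) hn2
  have h5 := log_le_of_lt hn
  have hl0 : 0 ≤ Real.log (n + 2) := Real.log_nonneg (by linarith)
  have hm0 : (0 : ℝ) < 2 * ((2 ^ (4 * l / 5) : ℕ) : ℝ) + 1 := by positivity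
  have hs1 := Real.sqrt_pos.2 hm0
  have hs2 := Real.sqrt_pos.2 hn0
  refine le_of_pow_le_pow_left₀ (n := 40) (by norm_num) hε.le ?_
  rw [mul_pow, div_pow, mul_pow]
  have h6 : Real.sqrt (n : ℝ) ^ 40 = (n : ℝ) ^ 20 := by
    rw [show 40 = 2 * 20 from rfl, pow_mul, Real.sq_sqrt hn0.le]
  have h7 : Real.sqrt (2 * ((2 ^ (4 * l / 5) : ℕ) : ℝ) + 1) ^ 40 =
      (2 * ((2 ^ (4 * l / 5) : ℕ) : ℝ) + 1) ^ 20 := by
    rw [show 40 = 2 * 20 from rfl, pow_mul, Real.sq_sqrt hm0.le]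
  have h8 : (2 : ℝ) ^ (16 * l) ≤ (2 * ((2 ^ (4 * l / 5) : ℕ) : ℝ) + 1) ^ 20 := by
    calc (2 : ℝ) ^ (16 * l) ≤ 2 ^ ((4 * l / 5 + 1) * 20) := pow_le_pow_right₀ (by norm_num) (by omega)
      _ = (2 ^ (4 * l / 5 + 1)) ^ 20 := by rw [pow_mul]
      _ ≤ (2 * ((2 ^ (4 * l / 5) : ℕ) : ℝ) + 1) ^ 20 := by
          refine pow_le_pow_left₀ (by positivity) ?_ _
          push_cast
          rw [pow_succ]
          linarith
  have h9 : (2 : ℝ) ^ (20 * l) ≤ (n : ℝ) ^ 20 := by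
    rw [mul_comm, pow_mul]
    exact pow_le_pow_left₀ (by positivity) hn2 _
  have h10 : ((2 : ℝ) ^ (7 * l / 8)) ^ 40 ≤ 2 ^ (35 * l) := by
    rw [← pow_mul]
    exact pow_le_pow_right₀ (by norm_num) (by omega)
  have h11 : (10 + Real.log (n + 2)) ^ 40 ≤ ε ^ 40 * 2 ^ l := by
    refine (pow_le_pow_left₀ (by positivity) ?_ 40).trans h4.le
    push_cast
    linarith
  rw [h6, h7, ← mul_div_assoc, div_le_iff₀ (by positivity)]
  calc ((2 : ℝ) ^ (7 * l / 8)) ^ 40 * (10 + Real.log (n + 2)) ^ 40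
      ≤ 2 ^ (35 * l) * (ε ^ 40 * 2 ^ l) := mul_le_mul h10 h11 (by positivity) (by positivity)
    _ = ε ^ 40 * (2 ^ (16 * l) * 2 ^ (20 * l)) := by
        rw [mul_left_comm, ← pow_add, ← pow_add]
        congr 2
        ring
    _ ≤ _ := mul_le_mul_of_nonneg_left (mul_le_mul h8 h9 (by positivity) (by positivity))
        (by positivity)

/-- the sum over the long lengths prime to `6` -/
theorem lim_three (A : ℝ) : ∃ l₀ : ℕ, ∀ l n : ℕ, l₀ ≤ l → 2 ^ l ≤ n →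
    A ≤ ∑ k ∈ (Icc (2 ^ (4 * l / 5)) n).filter (fun k => ¬ 2 ∣ k ∧ ¬ 3 ∣ k), (1 / (k : ℝ)) := by
  obtain ⟨q, hq⟩ := exists_nat_gt (Real.exp (6 * A))
  refine ⟨max (10 * q) 100, fun l n hl hn1 => ?_⟩
  have hn2 : (2 : ℝ) ^ l ≤ n := by exact_mod_cast hn1
  set m := 2 ^ (4 * l / 5) with hm
  have hm1 : 1 ≤ m := Nat.one_le_two_pow
  have hl1 : 100 ≤ l := le_trans (le_max_right _ _) hl
  have hl2 : 10 * q ≤ l := le_trans (le_max_left _ _) hl
  have hmn : m * 12 * 2 ^ (l / 10) ≤ n := by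
    have h12 : m * 12 * 2 ^ (l / 10) ≤ 2 ^ (4 * l / 5) * 2 ^ 4 * 2 ^ (l / 10) := by
      rw [hm]
      refine Nat.mul_le_mul_right _ (Nat.mul_le_mul_left _ (by norm_num))
    refine (h12.trans ?_).trans hn1
    rw [← pow_add, ← pow_add]
    exact Nat.pow_le_pow_right (by norm_num) (by omega)
  have hmn6 : m ≤ n / 6 := by
    rw [Nat.le_div_iff_mul_le (by norm_num)]
    have : 1 ≤ 2 ^ (l / 10) := Nat.one_le_two_pow
    nlinarith
  have h1 := log_le_harm m (n / 6) hmn6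
  have h2 : (1 / 6 : ℝ) * ∑ j ∈ Ico m (n / 6), (1 / ((j : ℝ) + 1)) ≤
      ∑ k ∈ (Icc m n).filter (fun k => ¬ 2 ∣ k ∧ ¬ 3 ∣ k), (1 / (k : ℝ)) := by
    rw [mul_sum]
    have hinj : Set.InjOn (fun j : ℕ => 6 * j + 1) (Ico m (n / 6) : Set ℕ) := by
      intro x _ y _ h
      simp only at h
      omega
    calc ∑ j ∈ Ico m (n / 6), (1 / 6 : ℝ) * (1 / ((j : ℝ) + 1))
        ≤ ∑ j ∈ Ico m (n / 6), (1 / (((6 * j + 1 : ℕ) : ℝ))) := by
          refine sum_le_sum fun j _ => ?_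
          have hj : (0 : ℝ) ≤ j := Nat.cast_nonneg _
          rw [one_div_mul_one_div]
          push_cast
          exact one_div_le_one_div_of_le (by positivity) (by linarith)
      _ = ∑ k ∈ (Ico m (n / 6)).image (fun j : ℕ => 6 * j + 1), (1 / (k : ℝ)) := by
          rw [sum_image (by exact_mod_cast hinj)]
      _ ≤ _ := by
          refine sum_le_sum_of_subset_of_nonneg ?_ fun k _ _ => by positivity
          intro k hk
          obtain ⟨j, hj, rfl⟩ := mem_image.1 hk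
          rw [mem_Ico] at hj
          refine mem_filter.2 ⟨mem_Icc.2 ⟨by omega, ?_⟩, by omega, by omega⟩
          have : 6 * (n / 6) ≤ n := Nat.mul_div_le n 6
          omega
  have h3 : Real.log (Real.exp (6 * A)) ≤ Real.log ((((n / 6 : ℕ) : ℝ) + 1) / (m + 1)) := by
    refine Real.log_le_log (Real.exp_pos _) ?_
    rw [le_div_iff₀ (by positivity)]
    have h4 : (n : ℝ) / 6 ≤ ((n / 6 : ℕ) : ℝ) + 1 := by
      have : n < 6 * (n / 6 + 1) := by omega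
      have h5 : (n : ℝ) < 6 * (((n / 6 : ℕ) : ℝ) + 1) := by exact_mod_cast this
      linarith
    have h6 : (m : ℝ) * 12 * 2 ^ (l / 10) ≤ n := by exact_mod_cast hmn
    have h7 : (1 : ℝ) ≤ m := by exact_mod_cast hm1
    have h8 : Real.exp (6 * A) ≤ 2 ^ (l / 10) := by
      have h9 : q ≤ 2 ^ (l / 10) :=
        (Nat.lt_two_pow_self (n := q)).le.trans (Nat.pow_le_pow_right (by norm_num) (by omega))
      have h10 : (q : ℝ) ≤ 2 ^ (l / 10) := by exact_mod_cast h9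
      linarith
    have h11 : Real.exp (6 * A) * (m + 1) ≤ 2 ^ (l / 10) * (2 * m) :=
      mul_le_mul h8 (by linarith) (by positivity) (by positivity)
    linarith
  rw [Real.log_exp] at h3
  linarith

end H29FE
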