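import Mathlib

/-!
# Clause (E), module Orb: invariant colourings of a permutation

`orb g`: the number of orbits (cycles, fixed points included).  `Inv g c`: the colouring `c` is constant on
the orbits.  `total`: the sum over all permutations `g` of `Fin n` and all `g`-invariant colourings with
given class sizes `s i` of `z ^ orb g` is `n ! * ∏ i, rf z (s i)`, `rf z k = z (z + 1) ⋯ (z + k - 1) / k !`.
-/

namespace H29FE

open Equiv Finset

/-- the number of orbits -/
noncomputable def orb {α : Type*} (g : Perm α) : ℕ := Nat.card (Quotient (Perm.SameCycle.setoid g))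

/-- the colouring `c` is constant on the orbits of `g` -/
def Inv {α ι : Type*} (g : Perm α) (c : α → ι) : Prop := ∀ x, c (g x) = c x

theorem inv_same {α ι : Type*} {g : Perm α} {c : α → ι} (h : Inv g c) {x y : α}
    (hxy : g.SameCycle x y) : c x = c y := by
  obtain ⟨k, rfl⟩ := hxy
  have h1 : ∀ (m : ℕ) (z : α), c ((g ^ m) z) = c z := by
    intro m
    induction m with
    | zero => intro z; rfl
    | succ m ih => intro z; rw [pow_succ', Perm.mul_apply, h, ih]
  obtain ⟨m, rfl | rfl⟩ := k.eq_nat_or_neg
  · rw [zpow_natCast, h1]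
  · rw [zpow_neg, zpow_natCast]
    have := h1 m ((g ^ m)⁻¹ x)
    rw [← Perm.mul_apply, mul_inv_cancel, Perm.one_apply] at this
    exact this

/-- invariant colourings are functions on the set of orbits -/
def invEquiv {α : Type*} (ι : Type*) (g : Perm α) :
    {c : α → ι // Inv g c} ≃ (Quotient (Perm.SameCycle.setoid g) → ι) where
  toFun c := fun q => Quotient.liftOn' q c.1 (fun _ _ h => inv_same c.2 h)
  invFun f := ⟨fun x => f (Quotient.mk (Perm.SameCycle.setoid g) x), fun x =>
    congrArg f (Quotient.sound (s := Perm.SameCycle.setoid g) (show g.SameCycle (g x) x from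
      (Perm.sameCycle_apply_left).2 (Perm.SameCycle.refl g x)))⟩
  left_inv c := rfl
  right_inv f := by
    funext q
    induction q using Quotient.inductionOn' with
    | h a => rfl

theorem card_inv {α : Type*} [Finite α] (ι : Type*) [Finite ι] (g : Perm α) :
    Nat.card {c : α → ι // Inv g c} = Nat.card ι ^ orb g := by
  rw [Nat.card_congr (invEquiv ι g), Nat.card_fun]
  rfl

/-- the colourings of `Fin (n + 1)` which are invariant under a composed permutation -/
theorem inv_decompose {n : ℕ} {ι : Type*} (p : Fin (n + 1)) (e : Perm (Fin n)) (c : Fin (n + 1) → ι) :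
    Inv (Perm.decomposeFin.symm (p, e)) c ↔ Inv e (fun x => c x.succ) ∧ c p = c 0 := by
  constructor
  · intro h
    have h0 : c p = c 0 := by
      have := h 0
      rwa [Perm.decomposeFin_symm_apply_zero] at this
    refine ⟨fun x => ?_, h0⟩
    have h1 := h x.succ
    rw [Perm.decomposeFin_symm_apply_succ] at h1
    rcases eq_or_ne (e x).succ p with h2 | h2
    · rw [h2, swap_apply_right] at h1
      show c (e x).succ = c x.succ
      rw [h2, h0, h1]
    · rw [swap_apply_of_ne_of_ne (Fin.succ_ne_zero _) h2] at h1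
      exact h1
  · rintro ⟨h1, h0⟩ x
    refine Fin.cases ?_ (fun x => ?_) x
    · rw [Perm.decomposeFin_symm_apply_zero, h0]
    · rw [Perm.decomposeFin_symm_apply_succ]
      rcases eq_or_ne (e x).succ p with h2 | h2
      · rw [h2, swap_apply_right, ← h0, ← h2]
        exact h1 x
      · rw [swap_apply_of_ne_of_ne (Fin.succ_ne_zero _) h2]
        exact h1 x

/-- a new fixed point -/
theorem orb_zero {n : ℕ} (e : Perm (Fin n)) : orb (Perm.decomposeFin.symm (0, e)) = orb e + 1 := by
  have h1 : Nat.card {c : Fin (n + 1) → Bool // Inv (Perm.decomposeFin.symm (0, e)) c} =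
      Nat.card (Bool × {c : Fin n → Bool // Inv e c}) := by
    refine Nat.card_congr
      { toFun := fun c => (c.1 0, ⟨fun x => c.1 x.succ, ((inv_decompose 0 e c.1).1 c.2).1⟩)
        invFun := fun c => ⟨Fin.cons c.1 c.2.1, (inv_decompose 0 e _).2 ⟨?_, rfl⟩⟩
        left_inv := fun c => ?_
        right_inv := fun c => ?_ }
    · intro x
      simp only [Fin.cons_succ]
      exact c.2.2 x
    · apply Subtype.ext
      funext x
      refine Fin.cases ?_ (fun x => ?_) x <;> simp
    · simp
  rw [card_inv, Nat.card_prod, card_inv, Nat.card_eq_fintype_card, Fintype.card_bool, ← pow_succ'] at h1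
  exact Nat.pow_right_injective le_rfl h1

/-- a point inserted into an orbit -/
theorem orb_succ {n : ℕ} (a : Fin n) (e : Perm (Fin n)) :
    orb (Perm.decomposeFin.symm (a.succ, e)) = orb e := by
  have h1 : Nat.card {c : Fin (n + 1) → Bool // Inv (Perm.decomposeFin.symm (a.succ, e)) c} =
      Nat.card {c : Fin n → Bool // Inv e c} := by
    refine Nat.card_congr
      { toFun := fun c => ⟨fun x => c.1 x.succ, ((inv_decompose a.succ e c.1).1 c.2).1⟩
        invFun := fun c => ⟨Fin.cons (c.1 a) c.1, (inv_decompose a.succ e _).2 ⟨?_, ?_⟩⟩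
        left_inv := fun c => ?_
        right_inv := fun c => ?_ }
    · intro x
      simp only [Fin.cons_succ]
      exact c.2 x
    · simp
    · apply Subtype.ext
      funext x
      have h0 := ((inv_decompose a.succ e c.1).1 c.2).2
      refine Fin.cases ?_ (fun x => ?_) x
      · simp [h0]
      · simp
    · simp
  rw [card_inv, card_inv, Nat.card_eq_fintype_card, Fintype.card_bool] at h1
  exact Nat.pow_right_injective le_rfl h1

/-- `z (z + 1) ⋯ (z + k - 1) / k !` -/
noncomputable def rf (z : ℝ) (k : ℕ) : ℝ := ∏ j ∈ range k, (z + j) / (j + 1)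

theorem rf_zero (z : ℝ) : rf z 0 = 1 := by rw [rf, prod_range_zero]

theorem rf_succ (z : ℝ) (k : ℕ) : rf z (k + 1) * (k + 1) = rf z k * (z + k) := by
  have h : (k : ℝ) + 1 ≠ 0 := by positivity
  rw [rf, prod_range_succ, ← rf, mul_assoc, div_mul_cancel₀ _ h]

open Classical in
/-- `x` if `P`, and zero otherwise -/
noncomputable def cnd (P : Prop) (x : ℝ) : ℝ := if P then x else 0

theorem cnd_pos {P : Prop} (h : P) (x : ℝ) : cnd P x = x := by rw [cnd, if_pos h]

theorem cnd_neg {P : Prop} (h : ¬ P) (x : ℝ) : cnd P x = 0 := by rw [cnd, if_neg h]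

theorem cnd_congr {P Q : Prop} (h : P ↔ Q) (x : ℝ) : cnd P x = cnd Q x := by
  rw [propext h]

theorem cnd_nonneg {P : Prop} {x : ℝ} (hx : 0 ≤ x) : 0 ≤ cnd P x := by
  by_cases h : P
  · rwa [cnd_pos h]
  · rw [cnd_neg h]

/-- the sum over the permutations and their invariant colourings with class sizes `s` -/
noncomputable def total {ι : Type*} [Fintype ι] [DecidableEq ι] (z : ℝ) (n : ℕ) (s : ι → ℕ) : ℝ :=
  ∑ g : Perm (Fin n), ∑ c : Fin n → ι,
    cnd (Inv g c ∧ (∀ i, (univ.filter fun x => c x = i).card = s i)) (z ^ orb g)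

theorem card_cons {n : ℕ} {ι : Type*} [DecidableEq ι] (j : ι) (c : Fin n → ι) (i : ι) :
    (univ.filter fun x => (Fin.cons j c : Fin (n + 1) → ι) x = i).card =
      (univ.filter fun x => c x = i).card + if j = i then 1 else 0 := by
  rw [Fin.card_filter_univ_succ', add_comm]
  simp only [Fin.cons_zero, Fin.cons_succ, Function.comp_def]

end H29FE
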