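import Pool.Agent.H29.FE.Orb

/-!
# Clause (E), module Rf: bounds for `rf (1 / 2) k` (the central binomial coefficient over `4 ^ k`)
-/

namespace H29FE

open Finset

theorem rf_pos (k : ℕ) : 0 < rf (1 / 2) k := by
  rw [rf]
  exact prod_pos fun j _ => by positivity

theorem rf_half_succ (k : ℕ) : rf (1 / 2) (k + 1) * (2 * k + 2) = rf (1 / 2) k * (2 * k + 1) := by
  have := rf_succ (1 / 2) k
  linear_combination 2 * this

theorem rf_le_one (k : ℕ) : rf (1 / 2) k ≤ 1 := by
  induction k with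
  | zero => rw [rf_zero]
  | succ k ih =>
    have h := rf_half_succ k
    have h1 := rf_pos (k + 1)
    have h2 := rf_pos k
    have h3 : (0 : ℝ) ≤ k := Nat.cast_nonneg k
    nlinarith

theorem rf_sq (k : ℕ) : rf (1 / 2) k ^ 2 * (2 * k + 1) ≤ 1 := by
  induction k with
  | zero => rw [rf_zero]; norm_num
  | succ k ih =>
    have h := rf_half_succ k
    have h3 : (0 : ℝ) ≤ k := Nat.cast_nonneg k
    have h4 : (0 : ℝ) < (2 * k + 2) ^ 2 := by positivity
    have h5 : rf (1 / 2) (k + 1) ^ 2 * (2 * k + 2) ^ 2 = rf (1 / 2) k ^ 2 * (2 * k + 1) ^ 2 := by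
      rw [← mul_pow, h, mul_pow]
    push_cast
    refine le_of_mul_le_mul_right ?_ h4
    rw [one_mul]
    have h6 : rf (1 / 2) (k + 1) ^ 2 * (2 * ((k : ℝ) + 1) + 1) * (2 * k + 2) ^ 2 =
        rf (1 / 2) k ^ 2 * (2 * k + 1) * ((2 * k + 1) * (2 * k + 3)) := by
      linear_combination (2 * ((k : ℝ) + 1) + 1) * h5
    rw [h6]
    have h7 : (0 : ℝ) ≤ (2 * k + 1) * (2 * k + 3) := by positivity
    nlinarith [mul_le_mul_of_nonneg_right ih h7]

theorem rf_sq_le (k : ℕ) : rf (1 / 2) k ^ 2 ≤ 1 / (2 * k + 1) := by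
  rw [le_div_iff₀ (by positivity)]
  exact rf_sq k

theorem rf_le (k : ℕ) : rf (1 / 2) k ≤ 1 / Real.sqrt (2 * k + 1) := by
  have h1 : (0 : ℝ) < 2 * k + 1 := by positivity
  rw [le_div_iff₀ (Real.sqrt_pos.2 h1)]
  have h2 := rf_sq k
  have h3 := Real.sq_sqrt h1.le
  have h4 := Real.sqrt_nonneg (2 * (k : ℝ) + 1)
  have h5 := rf_pos k
  nlinarith [mul_nonneg h5.le h4, sq_nonneg (rf (1 / 2) k * Real.sqrt (2 * k + 1) - 1)]

/-- `rf (3 / 2) n = (2 n + 1) rf (1 / 2) n` -/
theorem rf_three (n : ℕ) : rf (3 / 2) n = (2 * n + 1) * rf (1 / 2) n := by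
  induction n with
  | zero => rw [rf_zero, rf_zero]; norm_num
  | succ n ih =>
    have h1 := rf_succ (3 / 2) n
    have h2 := rf_half_succ n
    have h3 : (0 : ℝ) < n + 1 := by positivity
    refine mul_right_cancel₀ h3.ne' ?_
    rw [h1, ih]
    push_cast
    linear_combination (-(2 * (n : ℝ) + 3) / 2) * h2

theorem rf_three_le (n : ℕ) : rf (3 / 2) n ≤ Real.sqrt (2 * n + 1) := by
  have h1 : (0 : ℝ) < 2 * n + 1 := by positivity
  rw [rf_three]
  have h2 := rf_le n
  have h3 := Real.sqrt_pos.2 h1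
  calc (2 * (n : ℝ) + 1) * rf (1 / 2) n ≤ (2 * n + 1) * (1 / Real.sqrt (2 * n + 1)) :=
        mul_le_mul_of_nonneg_left h2 h1.le
    _ = Real.sqrt (2 * n + 1) := by
        rw [mul_one_div, Real.div_sqrt]

/-- the harmonic sum -/
theorem harm_le (n : ℕ) : ∑ j ∈ range n, (1 / ((j : ℝ) + 1)) ≤ 1 + Real.log (n + 1) := by
  have h : ∀ n : ℕ, ∑ j ∈ range (n + 1), (1 / ((j : ℝ) + 1)) ≤ 1 + Real.log (n + 1) := by
    intro n
    induction n with
    | zero => simp
    | succ n ih =>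
      rw [sum_range_succ]
      push_cast
      have h1 : 1 / ((n : ℝ) + 1 + 1) ≤ Real.log (n + 1 + 1) - Real.log (n + 1) := by
        have h2 : (0 : ℝ) < n + 1 := by positivity
        have h3 : (0 : ℝ) < n + 1 + 1 := by positivity
        rw [← Real.log_div h3.ne' h2.ne']
        refine le_trans (le_of_eq ?_) (Real.one_sub_inv_le_log_of_pos (div_pos h3 h2))
        rw [inv_div]
        field_simp
        ring
      linarith
  rcases n with _ | n
  · simp
  · refine (h n).trans ?_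
    have : Real.log ((n : ℝ) + 1) ≤ Real.log (((n + 1 : ℕ) : ℝ) + 1) :=
      Real.log_le_log (by positivity) (by push_cast; linarith)
    linarith

/-- lower bound for pieces of the harmonic sum -/
theorem log_le_harm (A B : ℕ) (h : A ≤ B) :
    Real.log ((B + 1 : ℝ) / (A + 1)) ≤ ∑ j ∈ Ico A B, (1 / ((j : ℝ) + 1)) := by
  induction B, h using Nat.le_induction with
  | base => rw [Ico_self, sum_empty, div_self (by positivity), Real.log_one]
  | succ B h ih =>
    rw [sum_Ico_succ_top h]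
    have h2 : (0 : ℝ) < B + 1 := by positivity
    have h3 : (0 : ℝ) < A + 1 := by positivity
    have h4 : (0 : ℝ) < ((B + 1 : ℕ) : ℝ) + 1 := by positivity
    have h1 : Real.log ((((B + 1 : ℕ) : ℝ) + 1) / (A + 1)) = Real.log ((B + 1) / (A + 1)) +
        Real.log ((((B + 1 : ℕ) : ℝ) + 1) / (B + 1)) := by
      rw [← Real.log_mul (by positivity) (by positivity)]
      congr 1
      field_simp
    have h5 : Real.log ((((B + 1 : ℕ) : ℝ) + 1) / (B + 1)) ≤ 1 / ((B : ℝ) + 1) := by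
      refine (Real.log_le_sub_one_of_pos (by positivity)).trans (le_of_eq ?_)
      push_cast
      field_simp
      ring
    rw [h1]
    exact add_le_add ih h5

/-- the sum of the inverse square roots -/
theorem sqrt_sum_le (n : ℕ) : ∑ j ∈ range n, (1 / Real.sqrt ((j : ℝ) + 1)) ≤ 2 * Real.sqrt n := by
  induction n with
  | zero => simp
  | succ n ih =>
    rw [sum_range_succ]
    have h1 : (0 : ℝ) ≤ n := Nat.cast_nonneg n
    have h2 : (0 : ℝ) < (n : ℝ) + 1 := by positivity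
    have h3 := Real.sqrt_pos.2 h2
    have h4 := Real.sqrt_nonneg (n : ℝ)
    have h5 := Real.sq_sqrt h1
    have h6 := Real.sq_sqrt h2.le
    have h7 : 1 / Real.sqrt ((n : ℝ) + 1) ≤ 2 * (Real.sqrt ((n : ℝ) + 1) - Real.sqrt n) := by
      rw [div_le_iff₀ h3]
      nlinarith [sq_nonneg (Real.sqrt ((n : ℝ) + 1) - Real.sqrt n)]
    push_cast
    linarith

end H29FE
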