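import Pool.Agent.H29.FE.Orb

/-!
# Clause (E), module Total: the sum over invariant colourings
-/

namespace H29FE

open Equiv Finset

/-- the sum over colourings of `Fin (n + 1)`, with the value at `0` separated -/
theorem sum_cons {ι : Type*} [Fintype ι] [DecidableEq ι] {n : ℕ} (F : (Fin (n + 1) → ι) → ℝ) :
    ∑ c : Fin (n + 1) → ι, F c = ∑ j : ι, ∑ c : Fin n → ι, F (Fin.cons j c) := by
  rw [← (Fin.consEquiv (fun _ : Fin (n + 1) => ι)).sum_comp, Fintype.sum_prod_type]
  rfl

theorem cond_iff {ι : Type*} [DecidableEq ι] (S s : ι → ℕ) (j : ι) :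
    (∀ i, (S i + if j = i then 1 else 0) = s i) ↔
      s j ≠ 0 ∧ ∀ i, S i = Function.update s j (s j - 1) i := by
  constructor
  · intro h
    have hj := h j
    rw [if_pos rfl] at hj
    refine ⟨by omega, fun i => ?_⟩
    rcases eq_or_ne i j with rfl | hij
    · rw [Function.update_self]
      omega
    · rw [Function.update_of_ne hij]
      have := h i
      rw [if_neg (Ne.symm hij)] at this
      omega
  · rintro ⟨h0, h⟩ i
    have hi := h i
    rcases eq_or_ne i j with rfl | hij
    · rw [Function.update_self] at hi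
      rw [if_pos rfl]
      omega
    · rw [Function.update_of_ne hij] at hi
      rw [if_neg (Ne.symm hij), hi, add_zero]

theorem sum_cnd {n : ℕ} {ι : Type*} [DecidableEq ι] (c : Fin n → ι) (j : ι) (y : ℝ) :
    ∑ a : Fin n, cnd (c a = j) y = ((univ.filter fun x => c x = j).card : ℝ) * y := by
  have h : ∀ a : Fin n, cnd (c a = j) y = if c a = j then y else 0 := by
    intro a
    by_cases h : c a = j
    · rw [cnd_pos h, if_pos h]
    · rw [cnd_neg h, if_neg h]
  rw [sum_congr rfl fun a _ => h a, ← sum_filter, sum_const, nsmul_eq_mul]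

theorem total_succ {ι : Type*} [Fintype ι] [DecidableEq ι] (z : ℝ) (n : ℕ) (s : ι → ℕ) :
    total z (n + 1) s = ∑ j : ι, cnd (s j ≠ 0)
      ((z + (s j - 1 : ℕ)) * total z n (Function.update s j (s j - 1))) := by
  have h1 : total z (n + 1) s = ∑ p : Fin (n + 1), ∑ e : Perm (Fin n), ∑ j : ι, ∑ c : Fin n → ι,
      cnd ((Inv e c ∧ (Fin.cons j c : Fin (n + 1) → ι) p = j) ∧
          s j ≠ 0 ∧ ∀ i, (univ.filter fun x => c x = i).card = Function.update s j (s j - 1) i)
        (z ^ orb (Perm.decomposeFin.symm (p, e))) := by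
    rw [total, ← (Perm.decomposeFin (n := n)).symm.sum_comp, Fintype.sum_prod_type]
    refine sum_congr rfl fun p _ => sum_congr rfl fun e _ => ?_
    rw [sum_cons]
    refine sum_congr rfl fun j _ => sum_congr rfl fun c _ => ?_
    refine cnd_congr ?_ _
    rw [inv_decompose, ← cond_iff]
    simp only [Fin.cons_succ, Fin.cons_zero, card_cons]
  have h2 : ∀ (e : Perm (Fin n)) (j : ι) (c : Fin n → ι),
      ∑ p : Fin (n + 1), cnd ((Inv e c ∧ (Fin.cons j c : Fin (n + 1) → ι) p = j) ∧
          s j ≠ 0 ∧ ∀ i, (univ.filter fun x => c x = i).card = Function.update s j (s j - 1) i)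
        (z ^ orb (Perm.decomposeFin.symm (p, e))) =
      cnd (s j ≠ 0) ((z + (s j - 1 : ℕ)) * cnd (Inv e c ∧ (∀ i, (univ.filter fun x => c x = i).card =
        Function.update s j (s j - 1) i)) (z ^ orb e)) := by
    intro e j c
    by_cases hj : s j = 0
    · rw [cnd_neg (not_not.2 hj)]
      exact sum_eq_zero fun p _ => cnd_neg (fun h => h.2.1 hj) _
    rw [cnd_pos hj]
    by_cases hC : Inv e c ∧ (∀ i, (univ.filter fun x => c x = i).card =
        Function.update s j (s j - 1) i)
    · rw [cnd_pos hC, Fin.sum_univ_succ, orb_zero, cnd_pos ⟨⟨hC.1, Fin.cons_zero _ _⟩, hj, hC.2⟩]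
      have h4 := hC.2 j
      rw [Function.update_self] at h4
      have h5 : ∀ a : Fin n, cnd ((Inv e c ∧ (Fin.cons j c : Fin (n + 1) → ι) a.succ = j) ∧
          s j ≠ 0 ∧ ∀ i, (univ.filter fun x => c x = i).card = Function.update s j (s j - 1) i)
          (z ^ orb (Perm.decomposeFin.symm (a.succ, e))) = cnd (c a = j) (z ^ orb e) := by
        intro a
        rw [orb_succ]
        refine cnd_congr ?_ _
        rw [Fin.cons_succ]
        exact ⟨fun h => h.1.2, fun h => ⟨⟨hC.1, h⟩, hj, hC.2⟩⟩
      rw [sum_congr rfl fun a _ => h5 a, sum_cnd, h4]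
      ring
    · rw [cnd_neg hC, mul_zero]
      exact sum_eq_zero fun p _ => cnd_neg (fun h => hC ⟨h.1.1, h.2.2⟩) _
  rw [h1, sum_comm]
  have h3 : ∀ j : ι, cnd (s j ≠ 0) ((z + (s j - 1 : ℕ)) * total z n (Function.update s j (s j - 1))) =
      ∑ e : Perm (Fin n), ∑ c : Fin n → ι, cnd (s j ≠ 0) ((z + (s j - 1 : ℕ)) *
        cnd (Inv e c ∧ (∀ i, (univ.filter fun x => c x = i).card =
        Function.update s j (s j - 1) i)) (z ^ orb e)) := by
    intro j
    by_cases hj : s j = 0
    · rw [cnd_neg (not_not.2 hj)]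
      exact (sum_eq_zero fun e _ => sum_eq_zero fun c _ => cnd_neg (not_not.2 hj) _).symm
    · rw [cnd_pos hj, total, mul_sum]
      refine sum_congr rfl fun e _ => ?_
      rw [mul_sum]
      exact sum_congr rfl fun c _ => (cnd_pos hj _).symm
  rw [sum_congr rfl fun j _ => h3 j, sum_comm (s := (univ : Finset ι))]
  refine sum_congr rfl fun e _ => ?_
  rw [sum_comm]
  refine sum_congr rfl fun j _ => ?_
  rw [sum_comm]
  exact sum_congr rfl fun c _ => h2 e j c

/-- the closed form -/
theorem total_eq {ι : Type*} [Fintype ι] [DecidableEq ι] (z : ℝ) (n : ℕ) (s : ι → ℕ)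
    (hs : ∑ i, s i = n) : total z n s = (n.factorial : ℝ) * ∏ i, rf z (s i) := by
  induction n generalizing s with
  | zero =>
    have h0 : ∀ i, s i = 0 := fun i => by
      have := Finset.sum_eq_zero_iff.1 hs i (mem_univ i)
      exact this
    have h1 : total z 0 s = 1 := by
      rw [total, Fintype.sum_unique, Fintype.sum_unique, cnd_pos]
      · have : orb (default : Perm (Fin 0)) = 0 := by
          rw [orb]
          have : IsEmpty (Quotient (Perm.SameCycle.setoid (default : Perm (Fin 0)))) :=
            ⟨fun q => Quotient.inductionOn' q (fun a => a.elim0)⟩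
          exact Nat.card_of_isEmpty
        rw [this, pow_zero]
      · exact ⟨fun x => x.elim0, fun i => by rw [h0 i]; simp⟩
    rw [h1, Nat.factorial_zero, Nat.cast_one, one_mul, prod_eq_one fun i _ => by rw [h0 i, rf_zero]]
  | succ n ih =>
    rw [total_succ]
    have h1 : ∀ j : ι, cnd (s j ≠ 0) ((z + (s j - 1 : ℕ)) * total z n (Function.update s j (s j - 1))) =
        (s j : ℝ) * ((n.factorial : ℝ) * ∏ i, rf z (s i)) := by
      intro j
      by_cases hj : s j = 0
      · rw [cnd_neg (not_not.2 hj), hj, Nat.cast_zero, zero_mul]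
      obtain ⟨k, hk⟩ := Nat.exists_eq_succ_of_ne_zero hj
      have hsum : ∑ i, Function.update s j (s j - 1) i = n := by
        rw [← add_sum_erase univ _ (mem_univ j)] at hs ⊢
        rw [Function.update_self, sum_congr rfl fun i hi =>
          Function.update_of_ne (ne_of_mem_erase hi) _ _]
        omega
      rw [cnd_pos hj, ih _ hsum, ← mul_prod_erase univ _ (mem_univ j),
        ← mul_prod_erase univ (fun i => rf z (s i)) (mem_univ j), Function.update_self,
        prod_congr rfl fun i hi => by rw [Function.update_of_ne (ne_of_mem_erase hi)], hk,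
        Nat.succ_eq_add_one, Nat.add_sub_cancel]
      have h2 := rf_succ z k
      push_cast
      linear_combination (-(n.factorial : ℝ) * ∏ i ∈ univ.erase j, rf z (s i)) * h2
    rw [sum_congr rfl fun j _ => h1 j, ← sum_mul, ← Nat.cast_sum, hs, Nat.factorial_succ]
    push_cast
    ring

end H29FE
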